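import Pool.Agent.TH346.CG.Defs
import Pool.Agent.TH674.CG.Energy
import Pool.Agent.H217R3.AK.Bsg

/-!
# GSC-PICK: a structured large subset of `A \ V`
-/

set_option autoImplicit false

open Finset
open scoped Pointwise

namespace Pool.Agent.TH521.CG

open Pool.Agent.TH346.CG

theorem avg {Γ : Type} [DecidableEq Γ] {M : ℕ} (X : Finset Γ) (i : Fin M)
    (f : (Fin M → Γ) → ℕ) :
    ∑ a ∈ Fintype.piFinset (fun _ : Fin M => X), ∑ x ∈ X, f (Function.update a i x) =
      X.card * ∑ a ∈ Fintype.piFinset (fun _ : Fin M => X), f a := by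
  rw [← Finset.sum_product']
  have hm : ∀ p ∈ Fintype.piFinset (fun _ : Fin M => X) ×ˢ X,
      ((Function.update p.1 i p.2, p.1 i) : (Fin M → Γ) × Γ) ∈
        Fintype.piFinset (fun _ : Fin M => X) ×ˢ X := by
    intro p hp
    rw [mem_product, Fintype.mem_piFinset] at hp ⊢
    refine ⟨fun j => ?_, hp.1 i⟩
    by_cases hj : j = i
    · subst hj; simpa using hp.2
    · simpa [Function.update_of_ne hj] using hp.1 j
  have h : ∑ p ∈ Fintype.piFinset (fun _ : Fin M => X) ×ˢ X, f (Function.update p.1 i p.2) =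
      ∑ p ∈ Fintype.piFinset (fun _ : Fin M => X) ×ˢ X, f p.1 := by
    refine Finset.sum_nbij' (fun p => (Function.update p.1 i p.2, p.1 i))
      (fun p => (Function.update p.1 i p.2, p.1 i)) hm hm ?_ ?_ ?_
    · intro p _
      simp
    · intro p _
      simp
    · intro p _
      rfl
  rw [h, Finset.sum_product]
  simp [Finset.mul_sum]

theorem pig {α ι : Type*} [DecidableEq α] (T : Finset α) (I : Finset ι) (f : ι → Finset α) (q : ℕ)
    (hT : T.Nonempty) (h : ∀ a ∈ T, ∃ i ∈ I, a ∈ f i) (hI : I.card ≤ q) :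
    ∃ i ∈ I, T.card ≤ q * (T ∩ f i).card := by
  by_contra hcon
  push Not at hcon
  have hIne : I.Nonempty := by
    obtain ⟨a, ha⟩ := hT
    obtain ⟨i, hi, _⟩ := h a ha
    exact ⟨i, hi⟩
  have h1 : T.card ≤ ∑ i ∈ I, (T ∩ f i).card := by
    refine le_trans (card_le_card ?_) (Finset.card_biUnion_le (s := I) (t := fun i => T ∩ f i))
    intro a ha
    obtain ⟨i, hi, hai⟩ := h a ha
    rw [mem_biUnion]
    exact ⟨i, hi, mem_inter.mpr ⟨ha, hai⟩⟩
  have h2 : ∑ i ∈ I, q * (T ∩ f i).card < ∑ _i ∈ I, T.card :=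
    Finset.sum_lt_sum_of_nonempty hIne hcon
  rw [← Finset.mul_sum, sum_const, smul_eq_mul] at h2
  have h3 : q * T.card ≤ q * ∑ i ∈ I, (T ∩ f i).card := Nat.mul_le_mul_left _ h1
  have h4 : I.card * T.card ≤ q * T.card := Nat.mul_le_mul_right _ hI
  omega

theorem exists_of_sum {α : Type*} (T : Finset α) (F : α → ℕ) (q C : ℕ) (hT : T.Nonempty)
    (h : T.card * C ≤ q * ∑ a ∈ T, F a) : ∃ a ∈ T, C ≤ q * F a := by
  by_contra hcon
  push Not at hcon
  have h2 : ∑ a ∈ T, q * F a < ∑ _a ∈ T, C := Finset.sum_lt_sum_of_nonempty hT hcon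
  rw [← Finset.mul_sum, sum_const, smul_eq_mul] at h2
  omega

section

variable {Γ : Type} [AddCommGroup Γ] [DecidableEq Γ]

theorem sgn_mem {X : Finset Γ} (hX : -X = X) {ε : SignType} (hε : ε ≠ 0) {x : Γ} (hx : x ∈ X) :
    ((ε : ℤ) • x) ∈ X := by
  cases ε with
  | zero => exact absurd rfl hε
  | neg =>
    have e : ((SignType.neg : SignType) : ℤ) = -1 := rfl
    rw [e, neg_one_zsmul, ← hX]
    exact Finset.neg_mem_neg hx
  | pos =>
    have e : ((SignType.pos : SignType) : ℤ) = 1 := rfl
    rw [e, one_zsmul]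
    exact hx

omit [DecidableEq Γ] in
theorem sgn_sgn {ε : SignType} (hε : ε ≠ 0) (x : Γ) : (ε : ℤ) • ((ε : ℤ) • x) = x := by
  cases ε with
  | zero => exact absurd rfl hε
  | neg =>
    have e : ((SignType.neg : SignType) : ℤ) = -1 := rfl
    rw [e, neg_one_zsmul, neg_one_zsmul, neg_neg]
  | pos =>
    have e : ((SignType.pos : SignType) : ℤ) = 1 := rfl
    rw [e, one_zsmul, one_zsmul]

omit [DecidableEq Γ] in
theorem sum_upd {M : ℕ} (ε : Fin M → SignType) (a : Fin M → Γ) (i : Fin M) (x : Γ) :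
    ∑ j, ((ε j : SignType) : ℤ) • (Function.update a i x) j =
      ((ε i : SignType) : ℤ) • x + ((∑ j, ((ε j : SignType) : ℤ) • a j) -
        ((ε i : SignType) : ℤ) • a i) := by
  have h1 := Finset.add_sum_erase univ
    (fun j => ((ε j : SignType) : ℤ) • (Function.update a i x) j) (mem_univ i)
  have h2 := Finset.add_sum_erase univ (fun j => ((ε j : SignType) : ℤ) • a j) (mem_univ i)
  have h3 : ∑ j ∈ univ.erase i, ((ε j : SignType) : ℤ) • (Function.update a i x) j =
      ∑ j ∈ univ.erase i, ((ε j : SignType) : ℤ) • a j := by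
    refine sum_congr rfl fun j hj => ?_
    rw [Function.update_of_ne (ne_of_mem_erase hj)]
  simp only [Function.update_self] at h1
  rw [← h1, ← h2, h3]
  abel

theorem neg_ks {D : Finset Γ} (hD : -D = D) : ∀ k : ℕ, -(ks k D) = ks k D := by
  intro k
  induction k with
  | zero => simp [ks]
  | succ k ih =>
    show -(ks k D + D) = ks k D + D
    rw [neg_add, ih, hD]

theorem ks_mono {D : Finset Γ} (hD : (0 : Γ) ∈ D) {k l : ℕ} (h : k ≤ l) : ks k D ⊆ ks l D := by
  induction l, h using Nat.le_induction with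
  | base => exact Subset.rfl
  | succ l _ ih =>
    refine ih.trans ?_
    intro x hx
    show x ∈ ks l D + D
    have := Finset.add_mem_add hx hD
    simpa using this

theorem neg_diff (D : Finset Γ) : -(D - D) = D - D := by
  rw [neg_sub]

theorem zero_mem_diff {D : Finset Γ} (hD : D.Nonempty) : (0 : Γ) ∈ D - D := by
  obtain ⟨x, hx⟩ := hD
  have := Finset.sub_mem_sub hx hx
  simpa using this

end

theorem pick (M K k L : ℕ) : ∃ c K' k' : ℕ, ∀ (Γ : Type) [AddCommGroup Γ] [Fintype Γ]
    [DecidableEq Γ] (A V : Finset Γ), -A = A → -V = V → 0 ∈ V →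
    (∀ x ∈ A, ∀ y ∈ A, x + y ∉ A) → P M A {0} → Cov A K k L V → (A \ V).Nonempty →
    ∃ (B B₀ : Finset Γ) (g : Γ), B ⊆ A \ V ∧ B.Nonempty ∧ (A \ V).card ≤ c * B.card ∧
      B₀ ⊆ A ∧ B₀.Nonempty ∧ (B₀ - B₀).card ≤ K' * B₀.card ∧
      ∀ b ∈ B, b - g ∈ ks k' (B₀ - B₀) := by
  classical
  set q : ℕ := 3 ^ M * (L + 1) with hq
  have hq1 : 1 ≤ q := Nat.one_le_iff_ne_zero.mpr (by positivity)
  refine ⟨8 * q, K + 2 ^ 22 * q ^ 10, k + 1, ?_⟩
  intro Γ _ _ dΓ A V hA hV h0 hfree hP hcov hne
  obtain ⟨s, hsL, hs, hcovs⟩ := hcov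
  set X : Finset Γ := A \ V with hX
  have hXneg : -X = X := by
    ext x
    rw [Finset.mem_neg', hX, mem_sdiff, mem_sdiff]
    have e1 : -x ∈ A ↔ x ∈ A := by
      rw [← Finset.mem_neg', hA]
    have e2 : -x ∈ V ↔ x ∈ V := by
      rw [← Finset.mem_neg', hV]
    rw [e1, e2]
  set T : Finset (Fin M → Γ) := Fintype.piFinset (fun _ : Fin M => X) with hT
  have hTne : T.Nonempty := by
    obtain ⟨x, hx⟩ := hne
    exact ⟨fun _ => x, Fintype.mem_piFinset.mpr fun _ => hx⟩
  have hTcard : T.card = X.card ^ M := by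
    rw [hT, Fintype.card_piFinset]
    simp
  have hN1 : 1 ≤ X.card := hne.card_pos
  set S : (Fin M → SignType) → (Fin M → Γ) → Γ := fun ε a => ∑ i, ((ε i : SignType) : ℤ) • a i
    with hS
  -- the sets of the pigeonhole
  set f : ((Fin M → SignType) × Option (Γ × Finset Γ)) → Finset (Fin M → Γ) := fun z =>
    T.filter (fun a => 2 ≤ (univ.filter (fun i => z.1 i ≠ 0)).card ∧
      match z.2 with
      | none => S z.1 a ∈ X
      | some p => S z.1 a - p.1 ∈ ks k (p.2 - p.2)) with hf
  have hpig : ∃ z ∈ (univ : Finset (Fin M → SignType)) ×ˢ (Finset.insertNone s),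
      T.card ≤ q * (T ∩ f z).card := by
    apply pig T _ f q hTne
    · intro a ha
      have ha' := Fintype.mem_piFinset.mp ha
      obtain ⟨ε, hε2, hε⟩ := hP a (fun i => by
        have := ha' i
        rw [hX, mem_sdiff] at this
        refine ⟨this.1, fun h => this.2 ?_⟩
        rw [mem_singleton] at h
        rw [h]
        exact h0)
      have hε' : S ε a ∈ X ∨ S ε a ∈ V := by
        rw [mem_union, mem_singleton] at hε
        by_cases hv : S ε a ∈ V
        · exact Or.inr hv
        · rcases hε with h | h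
          · left
            rw [hX, mem_sdiff]
            exact ⟨h, hv⟩
          · exact absurd (by rw [show S ε a = 0 from h]; exact h0) hv
      rcases hε' with h | h
      · refine ⟨(ε, none), ?_, ?_⟩
        · rw [mem_product]
          exact ⟨mem_univ _, by simp⟩
        · rw [hf]
          simp only [mem_filter]
          exact ⟨ha, hε2, h⟩
      · obtain ⟨p, hp, hpx⟩ := hcovs _ h
        refine ⟨(ε, some p), ?_, ?_⟩
        · rw [mem_product]
          exact ⟨mem_univ _, by simpa using hp⟩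
        · rw [hf]
          simp only [mem_filter]
          exact ⟨ha, hε2, hpx⟩
    · rw [card_product, Finset.card_insertNone, hq]
      have : (univ : Finset (Fin M → SignType)).card = 3 ^ M := by
        rw [Finset.card_univ, Fintype.card_fun, Fintype.card_fin]
        rfl
      rw [this]
      exact Nat.mul_le_mul_left _ (by omega)
  obtain ⟨⟨ε, tag⟩, hz, hzc⟩ := hpig
  have hTf : T ∩ f (ε, tag) = f (ε, tag) := by
    rw [hf]
    exact inter_eq_right.mpr (filter_subset _ _)
  rw [hTf] at hzc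
  have hTpos : 0 < T.card := hTne.card_pos
  have hfne : (f (ε, tag)).Nonempty := by
    rw [← card_pos]
    by_contra hcon
    have : (f (ε, tag)).card = 0 := by omega
    rw [this] at hzc
    omega
  obtain ⟨a₀, ha₀⟩ := hfne
  have hsupp : 2 ≤ (univ.filter (fun i => ε i ≠ 0)).card := by
    rw [hf] at ha₀
    simp only [mem_filter] at ha₀
    exact ha₀.2.1
  cases tag with
  | some p =>
    have hp : p ∈ s := by
      rw [mem_product] at hz
      simpa using hz.2
    obtain ⟨hpA, hpne, hpK⟩ := hs p hp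
    obtain ⟨i₀, hi₀⟩ : ∃ i₀, ε i₀ ≠ 0 := by
      have : (univ.filter (fun i => ε i ≠ 0)).Nonempty := by
        rw [← card_pos]; omega
      obtain ⟨i, hi⟩ := this
      exact ⟨i, (mem_filter.mp hi).2⟩
    set F : (Fin M → Γ) → ℕ := fun a => if S ε a - p.1 ∈ ks k (p.2 - p.2) then 1 else 0 with hF
    have hFsum : (f (ε, some p)).card ≤ ∑ a ∈ T, F a := by
      rw [hF, ← card_filter]
      apply card_le_card
      intro a ha
      rw [hf] at ha
      simp only [mem_filter] at ha ⊢
      exact ⟨ha.1, ha.2.2⟩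
    have havg := avg X i₀ F
    obtain ⟨a, haT, ha⟩ := exists_of_sum T (fun a => ∑ x ∈ X, F (Function.update a i₀ x)) q X.card
      hTne (by
        rw [hT, havg, ← hT]
        calc T.card * X.card ≤ (q * ∑ a ∈ T, F a) * X.card :=
              Nat.mul_le_mul_right _ (hzc.trans (Nat.mul_le_mul_left _ hFsum))
          _ = q * (X.card * ∑ a ∈ T, F a) := by ring)
    have hBc : ∑ x ∈ X, F (Function.update a i₀ x) =
        (X.filter (fun x => S ε (Function.update a i₀ x) - p.1 ∈ ks k (p.2 - p.2))).card := by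
      rw [hF, ← card_filter]
    set B : Finset Γ := X.filter (fun x => S ε (Function.update a i₀ x) - p.1 ∈ ks k (p.2 - p.2))
      with hB
    have ha' : X.card ≤ q * B.card := by
      have := ha
      rw [hBc] at this
      exact this
    have hBne : B.Nonempty := by
      rw [← card_pos]
      by_contra hcon
      have : B.card = 0 := by omega
      rw [this] at ha'
      omega
    set rest : Γ := S ε a - ((ε i₀ : SignType) : ℤ) • a i₀ with hrest
    refine ⟨B, p.2, ((ε i₀ : SignType) : ℤ) • (p.1 - rest), filter_subset _ _, hBne, ?_, hpA, hpne,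
      ?_, ?_⟩
    · exact ha'.trans (Nat.mul_le_mul_right _ (by omega))
    · exact hpK.trans (Nat.mul_le_mul_right _ (by omega))
    · intro b hb
      rw [hB, mem_filter] at hb
      have h1 := hb.2
      have h2 : S ε (Function.update a i₀ b) = ((ε i₀ : SignType) : ℤ) • b + rest := by
        rw [hS]
        simp only
        rw [sum_upd]
      rw [h2] at h1
      have hks := neg_ks (neg_diff p.2) k
      have h3 := sgn_mem hks hi₀ h1
      have h4 : ((ε i₀ : SignType) : ℤ) • (((ε i₀ : SignType) : ℤ) • b + rest - p.1) =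
          b - ((ε i₀ : SignType) : ℤ) • (p.1 - rest) := by
        have h5 := sgn_sgn hi₀ b
        rw [show ((ε i₀ : SignType) : ℤ) • b + rest - p.1 =
          ((ε i₀ : SignType) : ℤ) • b - (p.1 - rest) by abel, smul_sub, h5]
      rw [h4] at h3
      exact ks_mono (zero_mem_diff hpne) (Nat.le_succ k) h3
  | none =>
    -- the support has three elements
    have hsupp3 : 2 < (univ.filter (fun i => ε i ≠ 0)).card := by
      by_contra hcon
      have h2 : (univ.filter (fun i => ε i ≠ 0)).card = 2 := by omega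
      obtain ⟨i, j, hij, hset⟩ := Finset.card_eq_two.mp h2
      rw [hf] at ha₀
      simp only [mem_filter] at ha₀
      have ha₀T := Fintype.mem_piFinset.mp ha₀.1
      have hsum : S ε a₀ = ((ε i : SignType) : ℤ) • a₀ i + ((ε j : SignType) : ℤ) • a₀ j := by
        rw [hS]
        simp only
        rw [← Finset.sum_filter_of_ne (p := fun i => ε i ≠ 0) (s := univ)]
        · rw [hset, Finset.sum_pair hij]
        · intro x _ hx hx0
          apply hx
          rw [hx0]
          simp
      have hi : ε i ≠ 0 := by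
        have : i ∈ univ.filter (fun i => ε i ≠ 0) := by rw [hset]; simp
        exact (mem_filter.mp this).2
      have hj : ε j ≠ 0 := by
        have : j ∈ univ.filter (fun i => ε i ≠ 0) := by rw [hset]; simp
        exact (mem_filter.mp this).2
      have hiA : a₀ i ∈ A := (mem_sdiff.mp (ha₀T i)).1
      have hjA : a₀ j ∈ A := (mem_sdiff.mp (ha₀T j)).1
      have h3 := hfree _ (sgn_mem hA hi hiA) _ (sgn_mem hA hj hjA)
      rw [← hsum] at h3
      exact h3 (mem_sdiff.mp ha₀.2.2).1
    obtain ⟨i, hi, j, hj, l, hl, hij, hil, hjl⟩ := Finset.two_lt_card.mp hsupp3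
    have hi' := (mem_filter.mp hi).2
    have hj' := (mem_filter.mp hj).2
    have hl' := (mem_filter.mp hl).2
    set F : (Fin M → Γ) → ℕ := fun a => if S ε a ∈ X then 1 else 0 with hF
    have hFsum : (f (ε, none)).card ≤ ∑ a ∈ T, F a := by
      rw [hF, ← card_filter]
      apply card_le_card
      intro a ha
      rw [hf] at ha
      simp only [mem_filter] at ha ⊢
      exact ⟨ha.1, ha.2.2⟩
    set F1 : (Fin M → Γ) → ℕ := fun a => ∑ z ∈ X, F (Function.update a l z) with hF1
    set F2 : (Fin M → Γ) → ℕ := fun a => ∑ y ∈ X, F1 (Function.update a j y) with hF2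
    set F3 : (Fin M → Γ) → ℕ := fun a => ∑ x ∈ X, F2 (Function.update a i x) with hF3
    have e1 : ∑ a ∈ T, F1 a = X.card * ∑ a ∈ T, F a := avg X l F
    have e2 : ∑ a ∈ T, F2 a = X.card * ∑ a ∈ T, F1 a := avg X j F1
    have e3 : ∑ a ∈ T, F3 a = X.card * ∑ a ∈ T, F2 a := avg X i F2
    obtain ⟨a, haT, ha⟩ := exists_of_sum T F3 q (X.card ^ 3) hTne (by
      rw [e3, e2, e1]
      calc T.card * X.card ^ 3 ≤ (q * ∑ a ∈ T, F a) * X.card ^ 3 :=
            Nat.mul_le_mul_right _ (hzc.trans (Nat.mul_le_mul_left _ hFsum))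
        _ = q * (X.card * (X.card * (X.card * ∑ a ∈ T, F a))) := by ring)
    set t : Γ := S ε a - ((ε i : SignType) : ℤ) • a i - ((ε j : SignType) : ℤ) • a j -
      ((ε l : SignType) : ℤ) • a l with ht
    have hSup : ∀ x y z : Γ, S ε (Function.update (Function.update (Function.update a i x) j y) l z)
        = ((ε i : SignType) : ℤ) • x + ((ε j : SignType) : ℤ) • y + ((ε l : SignType) : ℤ) • z +
          t := by
      intro x y z
      rw [hS]
      simp only
      rw [sum_upd, sum_upd, sum_upd, Function.update_of_ne hjl.symm, Function.update_of_ne hil.symm,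
        Function.update_of_ne hij.symm, ht, hS]
      abel
    have hF3c : F3 a = (((X ×ˢ X) ×ˢ X).filter (fun p =>
        ((ε i : SignType) : ℤ) • p.1.1 + ((ε j : SignType) : ℤ) • p.1.2 +
          ((ε l : SignType) : ℤ) • p.2 + t ∈ X)).card := by
      rw [card_filter, Finset.sum_product, Finset.sum_product]
      rw [hF3]
      simp only [hF2, hF1, hF, hSup]
    have hle : F3 a ≤ (((X ×ˢ X) ×ˢ X).filter (fun p => p.1.1 + p.1.2 + p.2 + t ∈ X)).card := by
      rw [hF3c]
      refine Finset.card_le_card_of_injOn (fun p => ((((ε i : SignType) : ℤ) • p.1.1,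
        ((ε j : SignType) : ℤ) • p.1.2), ((ε l : SignType) : ℤ) • p.2)) ?_ ?_
      · intro p hp
        simp only [coe_filter, mem_product, Set.mem_ofPred_eq] at hp ⊢
        exact ⟨⟨⟨sgn_mem hXneg hi' hp.1.1.1, sgn_mem hXneg hj' hp.1.1.2⟩,
          sgn_mem hXneg hl' hp.1.2⟩, hp.2⟩
      · intro p _ p' _ hpp
        simp only [Prod.mk.injEq] at hpp
        obtain ⟨⟨h1, h2⟩, h3⟩ := hpp
        have g1 := sgn_sgn hi' p.1.1
        have g1' := sgn_sgn hi' p'.1.1
        have g2 := sgn_sgn hj' p.1.2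
        have g2' := sgn_sgn hj' p'.1.2
        have g3 := sgn_sgn hl' p.2
        have g3' := sgn_sgn hl' p'.2
        rw [h1, g1'] at g1
        rw [h2, g2'] at g2
        rw [h3, g3'] at g3
        exact Prod.ext (Prod.ext g1.symm g2.symm) g3.symm
    have hen := Pool.Agent.TH674.CG.energy X t q (ha.trans (Nat.mul_le_mul_left _ hle))
    obtain ⟨B, hBX, hBne, hBc, hBB⟩ := Pool.Agent.H217R3.AK.bsg X hne (q : ℝ)
      (by exact_mod_cast hq1) (by exact_mod_cast hen)
    have hBA : B ⊆ A := hBX.trans sdiff_subset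
    obtain ⟨g, hg⟩ := id hBne
    refine ⟨B, B, g, hBX, hBne, by exact_mod_cast hBc, hBA, hBne, ?_, ?_⟩
    · have h1 : (B - B).card ≤ 2 ^ 22 * q ^ 10 * B.card := by exact_mod_cast hBB
      exact h1.trans (Nat.mul_le_mul_right _ (by omega))
    · intro b hb
      have h1 : b - g ∈ ks 1 (B - B) := by
        show b - g ∈ ks 0 (B - B) + (B - B)
        show b - g ∈ ({0} : Finset Γ) + (B - B)
        have h2 := Finset.add_mem_add (mem_singleton_self (0 : Γ)) (Finset.sub_mem_sub hb hg)
        simpa using h2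
      exact ks_mono (zero_mem_diff hBne) (by omega) h1

end Pool.Agent.TH521.CG
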